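import Pool.Agent.H14R3.Aug.Stmts

/-! Project AUG, task Bound (helper349). -/

set_option autoImplicit false

open scoped ENNReal InnerProductSpace

namespace Pool.Agent.H14R3.Aug
namespace BoundAux

variable {n : ℕ}

theorem toWord_mk_of {W : List (Fin n × Bool)} (h : FreeGroup.IsReduced W) :
    (FreeGroup.mk W).toWord = W := by
  rw [FreeGroup.toWord_mk, h.reduce_eq]

theorem red_right {U W : List (Fin n × Bool)} (h : FreeGroup.IsReduced (U ++ W)) :
    FreeGroup.IsReduced W := List.IsChain.right_of_append h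

/-- the potential of a word -/
noncomputable def P (d : G n → ℂ) (V : List (Fin n × Bool)) : ℂ :=
  (V.tails.map fun w => d (FreeGroup.mk w)).sum

theorem P_nil (d : G n → ℂ) : P d [] = d (FreeGroup.mk []) := by
  simp [P]

theorem P_cons (d : G n → ℂ) (a : Fin n × Bool) (V : List (Fin n × Bool)) :
    P d (a :: V) = d (FreeGroup.mk (a :: V)) + P d V := by
  simp [P]

theorem sumsq (d : H (G n)) : Summable fun g => ‖d g‖ ^ 2 := by
  have h := (lp.memℓp d).summable (by norm_num : 0 < (2 : ℝ≥0∞).toReal)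
  simpa using h

theorem normsq (d : H (G n)) : ‖d‖ ^ 2 = ∑' g, ‖d g‖ ^ 2 := by
  have h := lp.norm_rpow_eq_tsum (by norm_num : 0 < (2 : ℝ≥0∞).toReal) d
  simpa using h

theorem sumInd (d : H (G n)) (A : Set (G n)) :
    Summable fun g => Set.indicator A (fun g => ‖d g‖ ^ 2) g :=
  (sumsq d).indicator A

theorem ind_nonneg (d : H (G n)) (A : Set (G n)) (g : G n) :
    0 ≤ Set.indicator A (fun g => ‖d g‖ ^ 2) g :=
  Set.indicator_nonneg (fun _ _ => by positivity) g

theorem En_nonneg (d : H (G n)) (w : G n) : 0 ≤ En d w :=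
  tsum_nonneg fun g => ind_nonneg d _ g

theorem En_le (d : H (G n)) (w : G n) : En d w ≤ ‖d‖ ^ 2 := by
  rw [normsq]
  unfold En
  refine (sumInd d _).tsum_le_tsum ?_ (sumsq d)
  intro g
  exact Set.indicator_le_self' (fun _ _ => by positivity) g

theorem term_le (d : H (G n)) {V W : List (Fin n × Bool)} (hV : FreeGroup.IsReduced V)
    (hW : FreeGroup.IsReduced W) (hs : W <:+ V) (hne : V ≠ W) :
    ‖d (FreeGroup.mk V)‖ ≤ √(En d (FreeGroup.mk W)) := by
  apply Real.le_sqrt_of_sq_le
  have h1 : FreeGroup.mk V ∈ {g : G n | (FreeGroup.mk W).toWord <:+ g.toWord ∧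
      g ≠ FreeGroup.mk W} := by
    refine ⟨?_, ?_⟩
    · rw [toWord_mk_of hV, toWord_mk_of hW]
      exact hs
    · intro h
      apply hne
      rw [← toWord_mk_of hV, h, toWord_mk_of hW]
  have h2 := (sumInd d {g : G n | (FreeGroup.mk W).toWord <:+ g.toWord ∧
      g ≠ FreeGroup.mk W}).le_tsum (FreeGroup.mk V) (fun g _ => ind_nonneg d _ g)
  rw [Set.indicator_of_mem h1] at h2
  exact h2

theorem small (d : H (G n)) {W : List (Fin n × Bool)} : ∀ (U : List (Fin n × Bool)),
    FreeGroup.IsReduced (U ++ W) →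
    ‖P d (U ++ W) - P d W‖ ≤ U.length * √(En d (FreeGroup.mk W)) := by
  intro U
  induction U with
  | nil =>
    intro _
    simp
  | cons a U ih =>
    intro h
    have h' : FreeGroup.IsReduced (U ++ W) := red_right (U := [a]) (by simpa using h)
    have h1 := ih h'
    have h2 := term_le d (V := (a :: U) ++ W) (W := W) h (red_right h) ⟨a :: U, rfl⟩ (by
      intro hc
      have := congrArg List.length hc
      simp at this
      omega)
    have h3 : P d ((a :: U) ++ W) - P d W =
        d (FreeGroup.mk ((a :: U) ++ W)) + (P d (U ++ W) - P d W) := by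
      rw [List.cons_append, P_cons]
      ring
    rw [h3]
    refine (norm_add_le _ _).trans ?_
    rw [List.length_cons]
    push_cast
    linarith

theorem big (d : H (G n)) (N L : ℕ)
    (hdec : ∀ w w' : G n, N + 1 ≤ len w → w.toWord <:+ w'.toWord → len w + L ≤ len w' →
      En d w' ≤ (1 / 2) * En d w) : ∀ (m : ℕ) (U W : List (Fin n × Bool)), U.length ≤ m →
    FreeGroup.IsReduced (U ++ W) → N + 1 ≤ W.length →
    ‖P d (U ++ W) - P d W‖ ≤ 4 * ((L : ℝ) + 1) * √(En d (FreeGroup.mk W)) := by
  intro m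
  induction m with
  | zero =>
    intro U W hU _ _
    have : U = [] := by
      rw [← List.length_eq_zero_iff]
      omega
    subst this
    simp only [List.nil_append, sub_self, norm_zero]
    positivity
  | succ m ih =>
    intro U W hU hred hW
    have hs0 : 0 ≤ √(En d (FreeGroup.mk W)) := Real.sqrt_nonneg _
    by_cases hle : U.length ≤ L + 1
    · refine (small d U hred).trans ?_
      have h1 : (U.length : ℝ) ≤ (L : ℝ) + 1 := by exact_mod_cast hle
      have h2 : (0 : ℝ) ≤ L := Nat.cast_nonneg L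
      apply mul_le_mul_of_nonneg_right _ hs0
      linarith
    · push Not at hle
      obtain ⟨U1, U2, hUU, hl2⟩ : ∃ U1 U2 : List (Fin n × Bool), U = U1 ++ U2 ∧
          U2.length = L + 1 :=
        ⟨U.take (U.length - (L + 1)), U.drop (U.length - (L + 1)), by simp, by
          rw [List.length_drop]
          omega⟩
      have hl1 : U1.length + (L + 1) = U.length := by
        rw [hUU, List.length_append, hl2]
      have hred2 : FreeGroup.IsReduced (U1 ++ (U2 ++ W)) := by
        rw [← List.append_assoc, ← hUU]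
        exact hred
      have hredW2 : FreeGroup.IsReduced (U2 ++ W) := red_right hred2
      have hredW : FreeGroup.IsReduced W := red_right hredW2
      have h1 := ih U1 (U2 ++ W) (by omega) hred2 (by rw [List.length_append]; omega)
      have h2 := small d U2 hredW2
      have hE : En d (FreeGroup.mk (U2 ++ W)) ≤ (1 / 2) * En d (FreeGroup.mk W) := by
        apply hdec
        · unfold len
          rw [toWord_mk_of hredW]
          exact hW
        · rw [toWord_mk_of hredW, toWord_mk_of hredW2]
          exact ⟨U2, rfl⟩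
        · unfold len
          rw [toWord_mk_of hredW, toWord_mk_of hredW2, List.length_append]
          omega
      have hsq : √(En d (FreeGroup.mk (U2 ++ W))) ≤ 3 / 4 * √(En d (FreeGroup.mk W)) := by
        apply Real.sqrt_le_iff.2
        refine ⟨by positivity, ?_⟩
        rw [mul_pow, Real.sq_sqrt (En_nonneg _ _)]
        have := En_nonneg d (FreeGroup.mk W)
        nlinarith
      have h3 : P d (U ++ W) - P d W =
          (P d (U1 ++ (U2 ++ W)) - P d (U2 ++ W)) + (P d (U2 ++ W) - P d W) := by
        rw [hUU, List.append_assoc]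
        ring
      rw [h3]
      refine (norm_add_le _ _).trans ?_
      rw [hl2] at h2
      push_cast at h2
      have h4 : 4 * ((L : ℝ) + 1) * √(En d (FreeGroup.mk (U2 ++ W))) ≤
          4 * ((L : ℝ) + 1) * (3 / 4 * √(En d (FreeGroup.mk W))) :=
        mul_le_mul_of_nonneg_left hsq (by positivity)
      calc ‖P d (U1 ++ (U2 ++ W)) - P d (U2 ++ W)‖ + ‖P d (U2 ++ W) - P d W‖
          ≤ 4 * ((L : ℝ) + 1) * (3 / 4 * √(En d (FreeGroup.mk W))) +
            ((L : ℝ) + 1) * √(En d (FreeGroup.mk W)) := add_le_add (h1.trans h4) h2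
        _ = _ := by ring

theorem norm_app_le (d : H (G n)) (g : G n) : ‖d g‖ ≤ ‖d‖ :=
  lp.norm_apply_le_norm (by norm_num) d g

theorem P_norm (d : H (G n)) (V : List (Fin n × Bool)) :
    ‖P d V‖ ≤ ((V.length : ℝ) + 1) * ‖d‖ := by
  induction V with
  | nil =>
    rw [P_nil]
    simpa using norm_app_le d _
  | cons a V ih =>
    rw [P_cons]
    refine (norm_add_le _ _).trans ?_
    have := norm_app_le d (FreeGroup.mk (a :: V))
    rw [List.length_cons]
    push_cast
    linarith

end BoundAux

open BoundAux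

theorem Bound_proof : Bound := by
  intro n d N L hdec
  refine ⟨((N : ℝ) + 2) * ‖d‖ + 4 * ((L : ℝ) + 1) * ‖d‖, fun g => ?_⟩
  have hn : 0 ≤ ‖d‖ := norm_nonneg _
  change ‖P d g.toWord‖ ≤ _
  have hred : FreeGroup.IsReduced g.toWord := FreeGroup.isReduced_toWord
  by_cases hle : g.toWord.length ≤ N + 1
  · refine (P_norm d _).trans ?_
    have h1 : (g.toWord.length : ℝ) ≤ (N : ℝ) + 1 := by exact_mod_cast hle
    have h2 : ((g.toWord.length : ℝ) + 1) * ‖d‖ ≤ ((N : ℝ) + 2) * ‖d‖ :=
      mul_le_mul_of_nonneg_right (by linarith) hn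
    have h3 : 0 ≤ 4 * ((L : ℝ) + 1) * ‖d‖ := by positivity
    linarith
  · push Not at hle
    obtain ⟨U, W, hUW, hlW⟩ : ∃ U W : List (Fin n × Bool), g.toWord = U ++ W ∧
        W.length = N + 1 :=
      ⟨g.toWord.take (g.toWord.length - (N + 1)), g.toWord.drop (g.toWord.length - (N + 1)),
        by simp, by
          rw [List.length_drop]
          omega⟩
    rw [hUW] at hred ⊢
    have h1 := big d N L hdec U.length U W le_rfl hred (by omega)
    have h2 := P_norm d W
    rw [hlW] at h2
    push_cast at h2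
    have h3 : √(En d (FreeGroup.mk W)) ≤ ‖d‖ :=
      Real.sqrt_le_iff.2 ⟨hn, En_le d _⟩
    have h4 : 4 * ((L : ℝ) + 1) * √(En d (FreeGroup.mk W)) ≤ 4 * ((L : ℝ) + 1) * ‖d‖ :=
      mul_le_mul_of_nonneg_left h3 (by positivity)
    have h5 : P d (U ++ W) = (P d (U ++ W) - P d W) + P d W := by ring
    rw [h5]
    refine (norm_add_le _ _).trans ?_
    have h6 : ((N : ℝ) + 1 + 1) * ‖d‖ = ((N : ℝ) + 2) * ‖d‖ := by ring
    linarith

end Pool.Agent.H14R3.Aug
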